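import Mathlib
import Pool.Agent.Helper890.Sec.Main
import Pool.Agent.Helper890.Sec.Fwd

set_option autoImplicit false

open MeasureTheory Set

namespace Pool.Agent.Results.MP_a6e06b_lc.SectionIffAssignment

/-- `E` is a Borel equivalence relation: an equivalence relation that is a Borel subset of the
product. -/
structure IsBorelEquivalence {X : Type} [MeasurableSpace X] (E : X → X → Prop) : Prop where
  equiv : Equivalence E
  borel : MeasurableSet {p : X × X | E p.1 p.2}

/-- Condition (i): `S` is a complete countable Borel section of `E`, a Borel set meeting every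
class in a nonempty countable set. -/
structure IsCompleteCountableSection {X : Type} [MeasurableSpace X] (E : X → X → Prop)
    (S : Set X) : Prop where
  borel : MeasurableSet S
  nonempty : ∀ x, (S ∩ {y | E x y}).Nonempty
  countable : ∀ x, (S ∩ {y | E x y}).Countable

/-- Two measures are equivalent: they have the same null sets. -/
def MeasureEquivalent {X : Type} [MeasurableSpace X] (μ ν : Measure X) : Prop :=
  ∀ A : Set X, MeasurableSet A → (μ A = 0 ↔ ν A = 0)

/-- Condition (ii): `μ` is a Borel map from `X` to the space of Borel probability measures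
(`x ↦ μ x A` is Borel for every Borel set `A`), the class of `x` has measure one with respect to
`μ x`, and equivalent points have equivalent measures. -/
structure IsMeasureAssignment {X : Type} [MeasurableSpace X] (E : X → X → Prop)
    (μ : X → Measure X) : Prop where
  prob : ∀ x, μ x univ = 1
  borel : ∀ A : Set X, MeasurableSet A → Measurable (fun x => μ x A)
  concentrated : ∀ x, μ x {y | E x y} = 1
  equivalent : ∀ x y, E x y → MeasureEquivalent (μ x) (μ y)

/-- Conditions (i) and (ii) are equivalent for every Borel equivalence relation on every standard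
Borel space. -/
theorem result (X : Type) [MeasurableSpace X] [StandardBorelSpace X] (E : X → X → Prop)
    (hE : IsBorelEquivalence E) :
    (∃ S : Set X, IsCompleteCountableSection E S) ↔ ∃ μ : X → Measure X, IsMeasureAssignment E μ := by
  constructor
  · rintro ⟨S, hS⟩
    obtain ⟨μ, h1, h2, h3, h4⟩ := Pool.Agent.Helper890.Sec.assignment_of_section E hE.equiv hE.borel S
      hS.borel fun x => ⟨hS.countable x, hS.nonempty x⟩
    refine ⟨μ, fun x => ?_, fun A hA => (Measure.measurable_coe hA).comp h1, h3, fun x y hxy A _ => ?_⟩
    · haveI := h2 x
      exact measure_univ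
    · exact ⟨fun h => (h4 x y hxy).2 h, fun h => (h4 x y hxy).1 h⟩
  · rintro ⟨μ, hμ⟩
    obtain ⟨B, hB, hBc⟩ := Pool.Agent.Helper890.Sec.section_of_assignment E hE.equiv hE.borel μ
      (Measure.measurable_of_measurable_coe μ hμ.borel) (fun x => ⟨hμ.prob x⟩) hμ.concentrated
      (fun x y hxy => Measure.AbsolutelyContinuous.mk fun A hA h => (hμ.equivalent x y hxy A hA).2 h)
    exact ⟨B, hB, fun x => (hBc x).2, fun x => (hBc x).1⟩

end Pool.Agent.Results.MP_a6e06b_lc.SectionIffAssignment
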